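import Pool.Agent.Helper29.OV.Conv3
import Pool.Agent.Helper29.OV.SatDef
import Pool.Agent.Helper29.OV.Base2

/-!
# MP_81e84b_lc: reduction of OVW to two-colourings defined by one first order sentence

There are first order sentences `φ n` about words over the one-letter alphabet `{a₀}` and variables,
whose atomic formulas are `x < y`, `x` carries the symbol `s`, and unary and binary advice relations
applied to positions, read as false if the smaller of two different arguments is a position carrying
`a₀` (`Sat (· ≥ ·)`), such that an omega-model `𝓜` of `ACA_0` satisfies `OVW^n_ℓ(A)` for all `n`, `ℓ`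
and nonempty `A` if (and only if), for all `n` and all advice in `𝓜`, the two-colouring of the
`n`-variable words over `{a₀}` defined by `φ n` has a solution in `𝓜`.

So the question for omega-models, whether `ACA_0` suffices for all colourings, is equivalent to the
question for this very small class of colourings. The restriction on the advice is the mirror image of
the one in `MonadicColourings`, where the corresponding statement is proved for all monadic second
order sentences and advice of any arity, with the smallest instead of the greatest argument
unrestricted.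
-/

namespace Pool.Agent.Helper29.Retired.FirstOrderReduction

open Pool.Agent.Helper29.OV

theorem result : ∃ φ : ℕ → Form 1, (∀ n, (φ n).IsFirstOrder ∧ (φ n).IsBinary) ∧
    ∀ 𝓜 : Set (Set ℕ), IsOmegaModelACA 𝓜 →
      ((∀ (n : ℕ) (R : ℕ → Set (List ℕ)) (f : List (Sym 1) → Fin 2), AdviceIn 𝓜 R →
          Defines (· ≥ ·) 0 R n f 1 (φ n) → HasSolution 𝓜 n f) ↔
        ∀ n ℓ m : ℕ, SatOVW 𝓜 n ℓ (m + 1)) := by
  refine ⟨uni, fun n => ⟨uni_fo n, uni_bin n⟩, fun 𝓜 h𝓜 => ⟨fun h1 => ?_, fun h1 => ?_⟩⟩
  · exact uni_spec (closed_of_aca h𝓜) fun n f R hR hd => h1 n R f hR hd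
  · intro n R f hR hd
    exact solution_of_satOVW (closed_of_aca h𝓜) (h1 n 2 0) 0 hR f (uni n) (uni_fo n) hd

end Pool.Agent.Helper29.Retired.FirstOrderReduction
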