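import Pool.Agent.Helper29.OV.Main
import Pool.Agent.Helper29.OV.Stmt

/-!
# MP_81e84b_lc: OVW^n for monadic second order definable colourings, in all omega-models of ACA_0

Let `𝓜` be (the second order part of) an omega-model of `ACA_0`, `A = Fin m` an alphabet with a
distinguished letter `a₀`, and `R` a family of advice relations in `𝓜` (relations between numbers, of
any arity). A colouring `f` of the `n`-variable words over `A` is given, each of whose colour classes
is defined by a sentence of monadic second order logic about the word `w`: the quantifiers range over
all positions and over all sets of positions of `w`, the atomic formulas are `x < y`, `x` carries the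
symbol `s`, `x ∈ Y`, and the advice relations applied to positions and to the length `|w|`, with the only
restriction that an advice relation is read as false if an argument which is not its smallest argument
is a position carrying the letter `a₀` (`Sat (· ≤ ·)`). Then there are an omega-variable word `W` in
`𝓜` and a colour `c` with `f (W[v]) = c` for all `n`-variable words `v` over `A`.

So `OVW^n_ℓ(A)` holds in `𝓜` for these colourings, for all `n`, `ℓ`, `A`. The class contains all
colourings computed by finite automata whose transition table at a position is an arbitrary function
(in `𝓜`) of the position and of the length of the word, all colourings given by an arbitrary function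
in `𝓜` of the places of the first occurrences of the variables and of the length, and all residues
mod `k` of sums of arbitrary functions in `𝓜` over all `j`-element sets of positions not carrying `a₀`.

Proof: Ramsey's theorem inside `𝓜` (Jockusch) gives a set `H` in `𝓜` on which the advice is
indiscernible; on words with support in `H` the sentences are recognised by a finite monoid (Buchi);
a second application of Ramsey's theorem makes the products over the gaps of `H` constant; and there
is an explicit primitive recursive omega-variable word which is homogeneous for all homomorphisms
into monoids of bounded size at once.

Definitions: `Pool/Agent/Helper29/OV/Defs.lean` and `Pool/Agent/Helper29/OV/Stmt.lean`.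
-/

namespace Pool.Agent.Helper29.Retired.MonadicColourings

open Pool.Agent.Helper29.OV

theorem result (𝓜 : Set (Set ℕ)) (h𝓜 : IsOmegaModelACA 𝓜) {m : ℕ} (a₀ : Fin m)
    (R : ℕ → Set (List ℕ)) (hR : AdviceIn 𝓜 R) (n ℓ : ℕ) (f : List (Sym m) → Fin ℓ)
    (hf : ∀ c : Fin ℓ, ∃ φ : Form m, Defines (· ≤ ·) a₀ R n f c φ) : HasSolution 𝓜 n f := by
  refine main a₀ n f 𝓜 h𝓜 R hR fun c => ?_
  obtain ⟨φ, hφ⟩ := hf c
  refine ⟨φ, fun w hw => ?_⟩
  rw [hφ w hw, sat_le_iff]
  exact Iff.rfl

end Pool.Agent.Helper29.Retired.MonadicColourings
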